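import Pool.Agent.N566.VV.Defs3

/-! # The generator `E` commutes with the maxima -/

set_option autoImplicit false

namespace Pool.Agent.N415.VV

open Pool.Agent.N566.VV
open Pool.Agent.H550R3.Jones (br brf Adm)
open Finset

/-- one summand of the action of `E` -/
noncomputable def H (N : ℕ) (v : ℂ) (f : F (Fin N)) (τ : ℕ → Fin N) (k : ℕ) : ℂ :=
  if h : (τ k : ℕ) + 1 < N then
    br v ((N : ℤ) - ((τ k : ℕ) + 1)) * f (Function.update τ k ⟨(τ k : ℕ) + 1, h⟩) else 0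

variable {N : ℕ} {v : ℂ}

theorem insS_lt {ι : Type} (i : ℕ) (x y : ι) (σ : ℕ → ι) {p : ℕ} (h : p < i) : insS i x y σ p = σ p := by
  unfold insS; rw [if_pos h]

theorem insS_i {ι : Type} (i : ℕ) (x y : ι) (σ : ℕ → ι) : insS i x y σ i = x := by
  unfold insS; rw [if_neg (lt_irrefl i), if_pos rfl]

theorem insS_i1 {ι : Type} (i : ℕ) (x y : ι) (σ : ℕ → ι) : insS i x y σ (i + 1) = y := by
  unfold insS; rw [if_neg (by omega), if_neg (by omega), if_pos rfl]

theorem insS_ge {ι : Type} (i : ℕ) (x y : ι) (σ : ℕ → ι) {p : ℕ} (h : i ≤ p) : insS i x y σ (p + 2) = σ p := by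
  unfold insS; rw [if_neg (by omega), if_neg (by omega), if_neg (by omega)]; rfl

theorem upd_lt {ι : Type} (i : ℕ) (x y z : ι) (σ : ℕ → ι) {k : ℕ} (h : k < i) :
    Function.update (insS i x y σ) k z = insS i x y (Function.update σ k z) := by
  funext p
  by_cases hp : p = k
  · subst hp; rw [Function.update_self, insS_lt i x y _ h, Function.update_self]
  · rw [Function.update_of_ne hp]
    unfold insS
    split_ifs with h1 h2 h3
    · rw [Function.update_of_ne hp]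
    · rfl
    · rfl
    · rw [Function.update_of_ne (by omega)]

theorem upd_ge {ι : Type} (i : ℕ) (x y z : ι) (σ : ℕ → ι) {k : ℕ} (h : i ≤ k) :
    Function.update (insS i x y σ) (k + 2) z = insS i x y (Function.update σ k z) := by
  funext p
  by_cases hp : p = k + 2
  · subst hp; rw [Function.update_self, insS_ge i x y _ h, Function.update_self]
  · rw [Function.update_of_ne hp]
    unfold insS
    split_ifs with h1 h2 h3
    · rw [Function.update_of_ne (by omega)]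
    · rfl
    · rfl
    · rw [Function.update_of_ne (by omega)]

theorem upd_i {ι : Type} (i : ℕ) (x y z : ι) (σ : ℕ → ι) :
    Function.update (insS i x y σ) i z = insS i z y σ := by
  funext p
  by_cases hp : p = i
  · subst hp; rw [Function.update_self, insS_i]
  · rw [Function.update_of_ne hp]
    unfold insS
    simp only [hp, if_false]

theorem upd_i1 {ι : Type} (i : ℕ) (x y z : ι) (σ : ℕ → ι) :
    Function.update (insS i x y σ) (i + 1) z = insS i x z σ := by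
  funext p
  by_cases hp : p = i + 1
  · subst hp; rw [Function.update_self, insS_i1]
  · rw [Function.update_of_ne hp]
    unfold insS
    simp only [hp, if_false]

theorem H_lt (f : F (Fin N)) (i : ℕ) (x y : Fin N) (σ : ℕ → Fin N) {k : ℕ} (h : k < i) :
    H N v f (insS i x y σ) k = H N v (fun τ => f (insS i x y τ)) σ k := by
  unfold H
  simp only [insS_lt i x y σ h, upd_lt i x y _ σ h]

theorem H_ge (f : F (Fin N)) (i : ℕ) (x y : Fin N) (σ : ℕ → Fin N) {k : ℕ} (h : i ≤ k) :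
    H N v f (insS i x y σ) (k + 2) = H N v (fun τ => f (insS i x y τ)) σ k := by
  unfold H
  simp only [insS_ge i x y σ h, upd_ge i x y _ σ h]

theorem H_i (f : F (Fin N)) (i : ℕ) (x y : Fin N) (σ : ℕ → Fin N) :
    H N v f (insS i x y σ) i = if h : (x : ℕ) + 1 < N then
      br v ((N : ℤ) - ((x : ℕ) + 1)) * f (insS i ⟨(x : ℕ) + 1, h⟩ y σ) else 0 := by
  unfold H
  simp only [insS_i i x y σ, upd_i i x y _ σ]

theorem H_i1 (f : F (Fin N)) (i : ℕ) (x y : Fin N) (σ : ℕ → Fin N) :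
    H N v f (insS i x y σ) (i + 1) = if h : (y : ℕ) + 1 < N then
      br v ((N : ℤ) - ((y : ℕ) + 1)) * f (insS i x ⟨(y : ℕ) + 1, h⟩ σ) else 0 := by
  unfold H
  simp only [insS_i1 i x y σ, upd_i1 i x y _ σ]

/-- the weight -/
noncomputable def wv (N : ℕ) (v : ℂ) (x : Fin N) : ℂ := v ^ ((N : ℤ) - 1 - 2 * (x : ℕ))

theorem wv_rev (hv : v ≠ 0) (x : Fin N) : wv N v x * wv N v (Fin.rev x) = 1 := by
  unfold wv
  rw [← zpow_add₀ hv]
  have h : ((N : ℤ) - 1 - 2 * (x : ℕ)) + ((N : ℤ) - 1 - 2 * ((Fin.rev x : Fin N) : ℕ)) = 0 := by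
    rw [Fin.val_rev]
    have := x.2
    omega
  rw [h, zpow_zero]

theorem prod_ge (w : Fin N → ℂ) (i n : ℕ) (x y : Fin N) (σ : ℕ → Fin N) {m : ℕ} (h : i ≤ m) :
    ∏ j ∈ Ico (m + 2) (n + 2), w (insS i x y σ j) = ∏ j ∈ Ico m n, w (σ j) := by
  rw [← prod_Ico_add' (fun j => w (insS i x y σ j)) m n 2]
  refine prod_congr rfl fun j hj => ?_
  rw [insS_ge i x y σ (h.trans (mem_Ico.mp hj).1)]

theorem prod_lt (w : Fin N → ℂ) (i n : ℕ) (x y : Fin N) (σ : ℕ → Fin N) {m : ℕ} (h : m ≤ i) (hn : i ≤ n) :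
    ∏ j ∈ Ico m (n + 2), w (insS i x y σ j) = w x * w y * ∏ j ∈ Ico m n, w (σ j) := by
  rw [← prod_Ico_consecutive (fun j => w (insS i x y σ j)) h (show i ≤ n + 2 by omega),
    prod_eq_prod_Ico_succ_bot (show i < n + 2 by omega), prod_eq_prod_Ico_succ_bot (show i + 1 < n + 2 by omega),
    show i + 1 + 1 = i + 2 from rfl, prod_ge w i n x y σ le_rfl, insS_i, insS_i1,
    ← prod_Ico_consecutive (fun j => w (σ j)) h hn]
  have e : ∏ j ∈ Ico m i, w (insS i x y σ j) = ∏ j ∈ Ico m i, w (σ j) := by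
    refine prod_congr rfl fun j hj => ?_
    rw [insS_lt i x y σ (mem_Ico.mp hj).2]
  rw [e]; ring

theorem brf_ne (hv : Adm N v) {m : ℕ} (hm : m < N) : brf v m ≠ 0 := by
  unfold brf
  rw [prod_ne_zero_iff]
  intro j hj
  have hj' := mem_range.mp hj
  have := hv.2 (j + 1) (by omega) (by omega)
  push_cast at this
  exact this

theorem kap_ne (hv : Adm N v) {j : ℕ} (hj : j < N) : kap N v j ≠ 0 := by
  unfold kap
  refine mul_ne_zero (mul_ne_zero (pow_ne_zero _ (by norm_num)) (div_ne_zero (mul_ne_zero (brf_ne hv hj)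
    (brf_ne hv (by omega))) (brf_ne hv (by omega)))) (zpow_ne_zero _ hv.1)

/-- the ratio of two coefficients of the cup -/
theorem kap_ratio (hv : Adm N v) {j : ℕ} (hj : j + 1 < N) :
    kap N v (j + 1) * br v ((N : ℤ) - 1 - j) = - (kap N v j * br v ((j : ℤ) + 1) * v ^ ((N : ℤ) - 3 - 2 * j)) := by
  obtain ⟨d, hd⟩ := Nat.exists_eq_add_of_lt hj
  have h1 : N - 1 - j = d + 1 := by omega
  have h2 : N - 1 - (j + 1) = d := by omega
  have hN : N - 1 = j + d + 1 := by omega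
  have hf1 : brf v (j + 1) = brf v j * br v ((j : ℤ) + 1) := by
    unfold brf; rw [prod_range_succ]
  have hf2 : brf v (d + 1) = brf v d * br v ((d : ℤ) + 1) := by
    unfold brf; rw [prod_range_succ]
  have hb : (N : ℤ) - 1 - j = (d : ℤ) + 1 := by omega
  unfold kap
  rw [h1, h2, hf1, hf2, hb, pow_succ]
  have hz : v ^ (((j + 1 : ℕ) : ℤ) * ((N : ℤ) - 2 - ((j + 1 : ℕ) : ℤ)))
      = v ^ ((j : ℤ) * ((N : ℤ) - 2 - j)) * v ^ ((N : ℤ) - 3 - 2 * j) := by
    rw [← zpow_add₀ hv.1]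
    congr 1
    push_cast
    ring
  rw [hz]
  ring

/-- the terms which cancel -/
theorem cancel (hv : Adm N v) (g : Fin N → Fin N → ℂ) :
    ∑ x : Fin N, (datJ N v).c x * (wv N v (Fin.rev x) * (if h : (x : ℕ) + 1 < N then
      br v ((N : ℤ) - ((x : ℕ) + 1)) * g ⟨(x : ℕ) + 1, h⟩ (Fin.rev x) else 0) +
      (if h : ((Fin.rev x : Fin N) : ℕ) + 1 < N then
      br v ((N : ℤ) - (((Fin.rev x : Fin N) : ℕ) + 1)) * g x ⟨((Fin.rev x : Fin N) : ℕ) + 1, h⟩ else 0)) = 0 := by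
  rcases Nat.eq_zero_or_pos N with h0 | h0
  · subst h0; simp
  obtain ⟨M, rfl⟩ := Nat.exists_eq_succ_of_ne_zero h0.ne'
  let G : ℕ → ℕ → ℂ := fun a b => if h : a < M.succ ∧ b < M.succ then g ⟨a, h.1⟩ ⟨b, h.2⟩ else 0
  let u : ℕ → ℂ := fun a => (kap M.succ v (M - a))⁻¹ * (v ^ (((M.succ : ℕ) : ℤ) - 1 - 2 * ((M - a : ℕ) : ℤ)) *
    (br v (((M.succ : ℕ) : ℤ) - ((a : ℤ) + 1)) * G (a + 1) (M - a)))
  let w : ℕ → ℂ := fun a => (kap M.succ v (M - a))⁻¹ * (br v (((M.succ : ℕ) : ℤ) - (((M - a : ℕ) : ℤ) + 1)) *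
    G a (M - a + 1))
  have hrev : ∀ x : Fin M.succ, ((Fin.rev x : Fin M.succ) : ℕ) = M - x := by
    intro x; rw [Fin.val_rev]; omega
  have hx : ∀ x : Fin M.succ, (datJ M.succ v).c x * (wv M.succ v (Fin.rev x) * (if h : (x : ℕ) + 1 < M.succ then
      br v (((M.succ : ℕ) : ℤ) - ((x : ℕ) + 1)) * g ⟨(x : ℕ) + 1, h⟩ (Fin.rev x) else 0) +
      (if h : ((Fin.rev x : Fin M.succ) : ℕ) + 1 < M.succ then
      br v (((M.succ : ℕ) : ℤ) - (((Fin.rev x : Fin M.succ) : ℕ) + 1)) *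
        g x ⟨((Fin.rev x : Fin M.succ) : ℕ) + 1, h⟩ else 0)) = u x + w x := by
    intro x
    have hc : (datJ M.succ v).c x = (kap M.succ v (M - x))⁻¹ := by
      show (kap M.succ v ((Fin.rev x : Fin M.succ) : ℕ))⁻¹ = _
      rw [hrev]
    have hw : wv M.succ v (Fin.rev x) = v ^ (((M.succ : ℕ) : ℤ) - 1 - 2 * ((M - x : ℕ) : ℤ)) := by
      unfold wv; rw [hrev]
    have h1 : (if h : (x : ℕ) + 1 < M.succ then
        br v (((M.succ : ℕ) : ℤ) - ((x : ℕ) + 1)) * g ⟨(x : ℕ) + 1, h⟩ (Fin.rev x) else 0)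
        = br v (((M.succ : ℕ) : ℤ) - (((x : ℕ) : ℤ) + 1)) * G (x + 1) (M - x) := by
      by_cases h : (x : ℕ) + 1 < M.succ
      · have h' : (x : ℕ) + 1 < M.succ ∧ M - (x : ℕ) < M.succ := ⟨h, by omega⟩
        show _ = _ * (if h : (x : ℕ) + 1 < M.succ ∧ M - (x : ℕ) < M.succ then g ⟨_, h.1⟩ ⟨_, h.2⟩ else 0)
        rw [dif_pos h, dif_pos h']
        have : (Fin.rev x : Fin M.succ) = ⟨M - (x : ℕ), h'.2⟩ := Fin.ext (hrev x)
        rw [this]
      · have h' : ¬ ((x : ℕ) + 1 < M.succ ∧ M - (x : ℕ) < M.succ) := fun h' => h h'.1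
        show _ = _ * (if h : (x : ℕ) + 1 < M.succ ∧ M - (x : ℕ) < M.succ then g ⟨_, h.1⟩ ⟨_, h.2⟩ else 0)
        rw [dif_neg h, dif_neg h', mul_zero]
    have h2 : (if h : ((Fin.rev x : Fin M.succ) : ℕ) + 1 < M.succ then
        br v (((M.succ : ℕ) : ℤ) - (((Fin.rev x : Fin M.succ) : ℕ) + 1)) *
          g x ⟨((Fin.rev x : Fin M.succ) : ℕ) + 1, h⟩ else 0)
        = br v (((M.succ : ℕ) : ℤ) - (((M - x : ℕ) : ℤ) + 1)) * G x (M - x + 1) := by
      by_cases h : ((Fin.rev x : Fin M.succ) : ℕ) + 1 < M.succ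
      · have h' : (x : ℕ) < M.succ ∧ M - (x : ℕ) + 1 < M.succ := ⟨x.2, by rw [hrev] at h; exact h⟩
        show _ = _ * (if h : (x : ℕ) < M.succ ∧ M - (x : ℕ) + 1 < M.succ then g ⟨_, h.1⟩ ⟨_, h.2⟩ else 0)
        rw [dif_pos h, dif_pos h']
        have e : (⟨((Fin.rev x : Fin M.succ) : ℕ) + 1, h⟩ : Fin M.succ) = ⟨M - (x : ℕ) + 1, h'.2⟩ :=
          Fin.ext (by show ((Fin.rev x : Fin M.succ) : ℕ) + 1 = _; rw [hrev])
        rw [e, hrev]
      · have h' : ¬ ((x : ℕ) < M.succ ∧ M - (x : ℕ) + 1 < M.succ) := fun h' => h (by rw [hrev]; exact h'.2)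
        show _ = _ * (if h : (x : ℕ) < M.succ ∧ M - (x : ℕ) + 1 < M.succ then g ⟨_, h.1⟩ ⟨_, h.2⟩ else 0)
        rw [dif_neg h, dif_neg h', mul_zero]
    rw [hc, hw, h1, h2, mul_add]
  rw [sum_congr rfl fun x _ => hx x, sum_add_distrib, Fin.sum_univ_eq_sum_range u, Fin.sum_univ_eq_sum_range w,
    sum_range_succ u M, sum_range_succ' w M]
  have hu : u M = 0 := by
    show (kap M.succ v (M - M))⁻¹ * (_ * (_ * (if h : M + 1 < M.succ ∧ M - M < M.succ then g ⟨_, h.1⟩ ⟨_, h.2⟩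
      else 0))) = 0
    rw [dif_neg (by omega), mul_zero, mul_zero, mul_zero]
  have hw : w 0 = 0 := by
    show (kap M.succ v (M - 0))⁻¹ * (_ * (if h : 0 < M.succ ∧ M - 0 + 1 < M.succ then g ⟨_, h.1⟩ ⟨_, h.2⟩
      else 0)) = 0
    rw [dif_neg (by omega), mul_zero, mul_zero]
  rw [hu, hw, add_zero, add_zero, ← sum_add_distrib]
  refine sum_eq_zero fun a ha => ?_
  have ha' := mem_range.mp ha
  obtain ⟨j, rfl⟩ : ∃ j, M = a + 1 + j := ⟨M - (a + 1), by omega⟩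
  have e1 : a + 1 + j - a = j + 1 := by omega
  have e2 : a + 1 + j - (a + 1) = j := by omega
  show (kap (a + 1 + j).succ v (a + 1 + j - a))⁻¹ *
      (v ^ ((((a + 1 + j).succ : ℕ) : ℤ) - 1 - 2 * ((a + 1 + j - a : ℕ) : ℤ)) *
      (br v ((((a + 1 + j).succ : ℕ) : ℤ) - ((a : ℤ) + 1)) * G (a + 1) (a + 1 + j - a))) +
    (kap (a + 1 + j).succ v (a + 1 + j - (a + 1)))⁻¹ *
      (br v ((((a + 1 + j).succ : ℕ) : ℤ) - (((a + 1 + j - (a + 1) : ℕ) : ℤ) + 1)) *
      G (a + 1) (a + 1 + j - (a + 1) + 1)) = 0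
  rw [e1, e2]
  have hr := kap_ratio hv (j := j) (show j + 1 < (a + 1 + j).succ by omega)
  have hk1 := kap_ne hv (j := j + 1) (show j + 1 < (a + 1 + j).succ by omega)
  have hk := kap_ne hv (j := j) (show j < (a + 1 + j).succ by omega)
  have b1 : (((a + 1 + j).succ : ℕ) : ℤ) - 1 - 2 * ((j + 1 : ℕ) : ℤ)
      = (((a + 1 + j).succ : ℕ) : ℤ) - 3 - 2 * (j : ℤ) := by push_cast; ring
  have b2 : (((a + 1 + j).succ : ℕ) : ℤ) - ((a : ℤ) + 1) = (j : ℤ) + 1 := by push_cast; ring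
  have b3 : (((a + 1 + j).succ : ℕ) : ℤ) - ((j : ℤ) + 1) = (((a + 1 + j).succ : ℕ) : ℤ) - 1 - (j : ℤ) := by ring
  rw [b1, b2, b3]
  have key : (kap (a + 1 + j).succ v (j + 1))⁻¹ * (v ^ ((((a + 1 + j).succ : ℕ) : ℤ) - 3 - 2 * (j : ℤ)) *
      br v ((j : ℤ) + 1)) + (kap (a + 1 + j).succ v j)⁻¹ *
      br v ((((a + 1 + j).succ : ℕ) : ℤ) - 1 - (j : ℤ)) = 0 := by
    field_simp
    linear_combination hr
  linear_combination (G (a + 1) (j + 1)) * key

theorem H_Bl (f : F (Fin N)) (i : ℕ) (σ : ℕ → Fin N) (k : ℕ) :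
    H N v (Bl (datJ N v) i f) σ k
      = ∑ x, (datJ N v).c x * H N v (fun τ => f (insS i x (Fin.rev x) τ)) σ k := by
  unfold H
  by_cases h : (σ k : ℕ) + 1 < N
  · simp only [dif_pos h]
    show _ * (∑ x, (datJ N v).c x * f (insS i x (Fin.rev x) _)) = _
    rw [mul_sum]
    refine sum_congr rfl fun x _ => ?_
    ring
  · simp only [dif_neg h, mul_zero, sum_const_zero]

theorem s_eb : S_EB := by
  intro N v hv i n hin f
  funext σ
  show ∑ x, (datJ N v).c x * (∑ k ∈ range (n + 2), (∏ j ∈ Ico (k + 1) (n + 2),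
      wv N v (insS i x (Fin.rev x) σ j)) * H N v f (insS i x (Fin.rev x) σ) k)
    = ∑ k ∈ range n, (∏ j ∈ Ico (k + 1) n, wv N v (σ j)) * H N v (Bl (datJ N v) i f) σ k
  have hR : ∑ k ∈ range n, (∏ j ∈ Ico (k + 1) n, wv N v (σ j)) * H N v (Bl (datJ N v) i f) σ k
      = ∑ x, (datJ N v).c x * ∑ k ∈ range n, (∏ j ∈ Ico (k + 1) n, wv N v (σ j)) *
        H N v (fun τ => f (insS i x (Fin.rev x) τ)) σ k := by
    simp only [H_Bl, mul_sum]
    rw [sum_comm]
    refine sum_congr rfl fun x _ => sum_congr rfl fun k _ => ?_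
    ring
  have hL : ∀ x : Fin N, ∑ k ∈ range (n + 2), (∏ j ∈ Ico (k + 1) (n + 2),
      wv N v (insS i x (Fin.rev x) σ j)) * H N v f (insS i x (Fin.rev x) σ) k
      = ∑ k ∈ range n, (∏ j ∈ Ico (k + 1) n, wv N v (σ j)) *
          H N v (fun τ => f (insS i x (Fin.rev x) τ)) σ k +
        (∏ j ∈ Ico i n, wv N v (σ j)) * (wv N v (Fin.rev x) * H N v f (insS i x (Fin.rev x) σ) i +
          H N v f (insS i x (Fin.rev x) σ) (i + 1)) := by
    intro x
    set t : ℕ → ℂ := fun k => (∏ j ∈ Ico (k + 1) (n + 2), wv N v (insS i x (Fin.rev x) σ j)) *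
      H N v f (insS i x (Fin.rev x) σ) k with ht
    set s : ℕ → ℂ := fun k => (∏ j ∈ Ico (k + 1) n, wv N v (σ j)) *
      H N v (fun τ => f (insS i x (Fin.rev x) τ)) σ k with hs
    have h1 : ∑ k ∈ range (n + 2), t k = ∑ k ∈ range i, t k + (t i + (t (i + 1) + ∑ k ∈ Ico i n, t (k + 2))) := by
      rw [← sum_range_add_sum_Ico t (show i ≤ n + 2 by omega), sum_eq_sum_Ico_succ_bot (show i < n + 2 by omega),
        sum_eq_sum_Ico_succ_bot (show i + 1 < n + 2 by omega), show i + 1 + 1 = i + 2 from rfl,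
        ← sum_Ico_add' t i n 2]
    have h2 : ∑ k ∈ range n, s k = ∑ k ∈ range i, s k + ∑ k ∈ Ico i n, s k :=
      (sum_range_add_sum_Ico s hin).symm
    have h3 : ∑ k ∈ range i, t k = ∑ k ∈ range i, s k := by
      refine sum_congr rfl fun k hk => ?_
      have hk' := mem_range.mp hk
      rw [ht, hs]
      simp only
      rw [prod_lt (wv N v) i n x (Fin.rev x) σ (show k + 1 ≤ i from hk') hin, wv_rev hv.1, one_mul,
        H_lt f i x (Fin.rev x) σ hk']
    have h4 : ∑ k ∈ Ico i n, t (k + 2) = ∑ k ∈ Ico i n, s k := by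
      refine sum_congr rfl fun k hk => ?_
      have hk' := (mem_Ico.mp hk).1
      rw [ht, hs]
      simp only
      rw [show k + 2 + 1 = (k + 1) + 2 from rfl, prod_ge (wv N v) i n x (Fin.rev x) σ (show i ≤ k + 1 by omega),
        H_ge f i x (Fin.rev x) σ hk']
    have h5 : t i = (wv N v (Fin.rev x) * ∏ j ∈ Ico i n, wv N v (σ j)) * H N v f (insS i x (Fin.rev x) σ) i := by
      rw [ht]
      simp only
      rw [prod_eq_prod_Ico_succ_bot (show i + 1 < n + 2 by omega), show i + 1 + 1 = i + 2 from rfl,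
        prod_ge (wv N v) i n x (Fin.rev x) σ le_rfl, insS_i1]
    have h6 : t (i + 1) = (∏ j ∈ Ico i n, wv N v (σ j)) * H N v f (insS i x (Fin.rev x) σ) (i + 1) := by
      rw [ht]
      simp only
      rw [show i + 1 + 1 = i + 2 from rfl, prod_ge (wv N v) i n x (Fin.rev x) σ le_rfl]
    rw [h1, h2, h3, h4, h5, h6]
    ring
  rw [hR]
  have hsum : ∀ x : Fin N, (datJ N v).c x * (∑ k ∈ range (n + 2), (∏ j ∈ Ico (k + 1) (n + 2),
      wv N v (insS i x (Fin.rev x) σ j)) * H N v f (insS i x (Fin.rev x) σ) k)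
      = (datJ N v).c x * (∑ k ∈ range n, (∏ j ∈ Ico (k + 1) n, wv N v (σ j)) *
          H N v (fun τ => f (insS i x (Fin.rev x) τ)) σ k) +
        (∏ j ∈ Ico i n, wv N v (σ j)) * ((datJ N v).c x * (wv N v (Fin.rev x) *
          H N v f (insS i x (Fin.rev x) σ) i + H N v f (insS i x (Fin.rev x) σ) (i + 1))) := by
    intro x
    rw [hL x]; ring
  rw [sum_congr rfl fun x _ => hsum x, sum_add_distrib, ← mul_sum]
  have h0 : ∑ x : Fin N, (datJ N v).c x * (wv N v (Fin.rev x) *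
      H N v f (insS i x (Fin.rev x) σ) i + H N v f (insS i x (Fin.rev x) σ) (i + 1)) = 0 := by
    rw [← cancel hv (fun a b => f (insS i a b σ))]
    refine sum_congr rfl fun x _ => ?_
    rw [H_i, H_i1]
  rw [h0, mul_zero, add_zero]

end Pool.Agent.N415.VV
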